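import Mathlib
import Pool.Agent.Q303.HL.Lifts

/-!
# Orthogonal liftings of cohomologically trivial cycles are independent of the regular model and
functorial for all correspondences

Let `E` be a number field. `Cycles`, `Models`, `Morph` and `Alterations` record the formal
properties of the Chow groups with rational coefficients of the smooth proper schemes `X` over `E` (not necessarily geometrically
connected), of correspondences between them, and of their regular proper flat models `𝒳` over `O_E`:
inverse and direct images for the morphisms of models (Gillet-Soulé), compatible with restriction to
the generic fibre; the Gillet-Soulé pairing on the classes with cohomologically trivial generic fibre,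
which satisfies the projection formula; and de Jong's theorem on alterations, in the following form:
every correspondence `γ ∈ Ch^*(X × Y)_ℚ` acts as a rational combination of maps `h_* g^*`, where
`g : 𝒵 → 𝒳` and `h : 𝒵 → 𝒴` are morphisms from regular proper flat schemes `𝒵` over `O_E` to given
models of `X` and `Y` (alterations of the closures in `𝒳 × 𝒴` of the components of `γ`). All groups
are the sums over all codimensions.

For a model `𝒳` of `X` let `liftable 𝒳` be the space of the cohomologically trivial classes on `X` which
are restrictions of classes on `𝒳` orthogonal to all classes supported on closed fibres. The question
asks whether `liftable 𝒳` consists of all cohomologically trivial classes (`Holds 𝒳`).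

**Theorem.**
1. `liftable 𝒳` depends only on `X`, not on the model: the question has the same answer for all
   regular proper flat models of `X`.
2. For every correspondence `γ ∈ Ch^*(X × Y)_ℚ` and all models `𝒳`, `𝒴`, `γ` maps `liftable 𝒳` into
   `liftable 𝒴`.
3. The images `γ_* c` under correspondences of cohomologically trivial classes `c` on schemes `X` with
   a model for which `Holds 𝒳` is true are liftable on every model `𝒴` of `Y`. So `Holds 𝒴` is true
   as soon as these images span the space of cohomologically trivial classes on `Y`.

Consequences. (a) Every cycle on `Y` which is algebraically equivalent to zero (with rational
coefficients) is liftable, on every regular proper flat model and in every codimension, since it is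
`γ_* c` for a zero-cycle `c` of degree zero on a smooth projective curve, for which the statement is
known (Faltings, Hriljac). (b) The statement holds for all `Y` whose Chow motive (even ungraded, i.e.
whose noncommutative motive) is a direct summand of a sum of motives of varieties for which it is
known: curves, surfaces, and all varieties `X'` over finite extensions `E'` of `E` with a smooth proper
model over `O_{E'}` (consider `X'` as a scheme over `E`). For example it holds, for all regular models
and in all codimensions, for all Fermat hypersurfaces and their products (their motives are summands
of those of abelian varieties with complex multiplication, which have good reduction everywhere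
over a finite extension), and for all threefolds whose zero-cycles are supported on a surface
(Bloch-Srinivas), such as uniruled threefolds. (c) It is inherited by the targets of dominant maps, by
quotients, and by derived equivalent varieties and admissible subcategories.

In these cases the Beilinson-Bloch height pairing is therefore defined unconditionally.
-/

set_option autoImplicit false

universe u v

namespace Pool.Agent.Results.MP_62d77c_ag.FunctorialLifts

open Pool.Agent.Q303.HL

/-- **Orthogonal liftings: independence of the model, functoriality, inheritance.** -/
theorem result {S : Cycles.{u, v}} {M : Models S} (hM : M.Linear) (hA : Alterations M) :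
    (∀ (X : S.Var) (𝒳 𝒳' : M.Mod X), liftable 𝒳 = liftable 𝒳') ∧
    (∀ (X Y : S.Var) (𝒳 : M.Mod X) (𝒴 : M.Mod Y) (γ : S.Corr X Y),
      ∀ c ∈ liftable 𝒳, S.act γ c ∈ liftable 𝒴) ∧
    (∀ (Y : S.Var) (𝒴 : M.Mod Y), (∀ c ∈ generated M Y, c ∈ liftable 𝒴) ∧
      ((∀ c ∈ S.triv Y, c ∈ generated M Y) → Holds 𝒴)) :=
  ⟨fun _ 𝒳 𝒳' => liftable_eq hM hA 𝒳 𝒳', fun _ _ 𝒳 𝒴 γ _ hc => act_liftable hM hA 𝒳 𝒴 γ hc,
    fun _ 𝒴 => ⟨generated_le hM hA 𝒴, fun h c hc => generated_le hM hA 𝒴 c (h c hc)⟩⟩

end Pool.Agent.Results.MP_62d77c_ag.FunctorialLifts
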