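import Pool.Agent.Q193.LT.Cyc

/-!
# Orthogonal liftings of homologically trivial cycles and the cubics `∑_H x_i y_j z_l = 1`

For a smooth projective scheme `Y` over `ℚ` let `B^n(Y)` be the space of homologically trivial cycles
`Ch^n(Y)_{ℚ,0}` and `A^n(Y)` the subspace of the classes `c` with the following property: for every (or for
some) surjective morphism `f : Y' → Y` of smooth projective schemes of the same dimension such that `Y'`
has a regular proper flat model `𝒴'` over `ℤ` (it exists by the theorem of de Jong), `f^* c` is the
restriction of a class in `Ch^n(𝒴')` that is orthogonal to all cycles supported in closed fibres.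

This does not depend on the choices, and correspondences map `A^n` to `A^n`: a correspondence from `X` to
`Y` is a combination of classes `[V] = deg⁻¹ (p, q)_* [V']` with `p : V' → X`, `q : V' → Y`, such that `V'`
has a regular model with morphisms to given models of `X` and `Y` (de Jong); and if `x` is orthogonal to
all fibral cycles, the same is true for `q_* p^* x`, since `(q_* p^* x, y) = (x, p_* q^* y)` and `p_* q^* y`
is fibral. So `A^n` and `B^n` are functors of Chow motives over `ℚ`.

For a separated scheme `X` of finite type over `ℚ` let `W(X)` be its weight complex (Gillet, Soulé), with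
`W(X) = h(X)` for smooth projective `X`, and `A^{n,i}(X) = H^i(A^n(W(X)))`,
`B^{n,i}(X) = H^i(B^n(W(X)))` for `n, i ∈ ℤ`. The inclusion gives maps `A^{n,i}(X) → B^{n,i}(X)`, and
`BijAll C X` says that they are isomorphisms for all `n` and `i`.

Let `V` be the type of all data `x = (E, X, 𝒳, i, c)` of a number field `E`, a smooth proper variety `X`
over `E` with a regular proper flat model `𝒳`, an integer `i` and a class `c ∈ Ch^i(X)_{ℚ,0}`, let `dim x`
be the dimension of `X`, and let `lift x` be the statement of question Q1 that `c` is the restriction of a
class orthogonal to all fibral cycles. A variety over `E` is a scheme over `ℚ`, and a model over `O_E` is a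
model over `ℤ`, with the same fibral cycles; so for all `n` the statement `lift x` for all `x` with
`dim x ≤ n` is equivalent to `BijAll C Y` for all smooth projective schemes `Y` of dimension at most `n`
over `ℚ` (hypothesis `models`).

For `X` of dimension at most two, `lift x` is known (hypothesis `surfaces`): for zero-cycles of degree zero
on the components it follows from the fact that a fibral divisor orthogonal to all fibral curves is a sum
of multiples of full fibres, and `Ch^1(X)_{ℚ,0} = Pic^0(X)_ℚ` depends only on `h^1(X)`, a direct factor of
the motive of a curve.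

**Theorem.** (1) Question Q1 has a positive answer for all number fields, varieties, models and cycles if
and only if the maps `A^{n,i}(Z) → B^{n,i}(Z)` are isomorphisms for the smooth affine cubic hypersurfaces
`Z : ∑_{(i, j, l) ∈ H} x_i y_j z_l = 1` over `ℚ` of all finite sets `H` of triples (tripartite
hypergraphs).

(2) For all `n`, question Q1 has a positive answer for all varieties of dimension at most `n` if and only
if the maps are isomorphisms for the hypersurfaces `T(x, y, z) = 1` of all trilinear forms `T` with
rational coefficients such that one of the three blocks of variables has at most `n + 2` variables (the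
other two blocks are arbitrary).

(3) Unconditionally, the maps are isomorphisms for the hypersurfaces `T(x, y, z) = 1` such that one of the
three blocks of variables has at most four variables.
-/

set_option autoImplicit false

open CategoryTheory CategoryTheory.Limits AlgebraicGeometry Pool.Agent.Y116.UV Pool.Agent.Z125.UN
  Pool.Agent.Q193.LT

universe w

namespace Pool.Agent.Results.MP_62d77c_ag.HypergraphCubics

/-- **Orthogonal liftings of cycles and cubic hypersurfaces.** See the explanations above. -/
theorem result {C : PairData.{w} ℚ (ℤ × ℤ) ℚ} (hC : IsWeightPair C) (hg : WeightGen C)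
    (point : BijAll C (aff ℚ ℚ)) {V : Type 1} {dim : V → ℕ} {lift : V → Prop}
    (models : ∀ n : ℕ, (∀ x, dim x ≤ n → lift x) ↔
      ∀ Y : Sch ℚ, SmoothProj Y → topologicalKrullDim Y.left ≤ n → BijAll C Y)
    (surfaces : ∀ x, dim x ≤ 2 → lift x) :
    ((∀ x, lift x) ↔ ∀ (a b c : ℕ) (H : Finset (Fin a × Fin b × Fin c)), BijAll C (tripS ℚ H)) ∧
    (∀ n : ℕ, (∀ x, dim x ≤ n → lift x) ↔
      ∀ (a b c : ℕ) (T : Fin a → Fin b → Fin c → ℚ), (a ≤ n + 2 ∨ b ≤ n + 2 ∨ c ≤ n + 2) →
        BijAll C (hypS T)) ∧
    ∀ (a b c : ℕ) (T : Fin a → Fin b → Fin c → ℚ), (a ≤ 4 ∨ b ≤ 4 ∨ c ≤ 4) →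
      BijAll C (hypS T) := by
  have h1 : ∀ n : ℕ, (∀ x, dim x ≤ n → lift x) ↔
      ∀ (a b c : ℕ) (T : Fin a → Fin b → Fin c → ℚ), (a ≤ n + 2 ∨ b ≤ n + 2 ∨ c ≤ n + 2) →
        BijAll C (hypS T) := fun n => (models n).trans (wg_dim hg hC point n)
  refine ⟨?_, h1, (h1 2).mp surfaces⟩
  rw [← wg_graph hg hC point frac_rat]
  constructor
  · intro h
    refine (wg_all hg hC point).mpr fun a b c T => ?_
    exact (h1 a).mp (fun x _ => h x) a b c T (Or.inl (by omega))
  · intro h x
    exact (models (dim x)).mpr (fun Y hY _ => h Y hY) x le_rfl

end Pool.Agent.Results.MP_62d77c_ag.HypergraphCubics
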