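import Pool.Agent.Q16.AC.Red
/-!
# Lifting cycles orthogonally to fibral cycles: reduction to the middle codimension on strictly
semistable projective models, and to the radical of the intersection form

Q1 for a regular model `𝒳` (over the ring of integers of a number field, with generic fibre `X` of
dimension `d`) and a codimension `i`: every class in `Ch^i(X)_{ℚ,0}` lifts to a class on `𝒳` which
is orthogonal to all classes supported in closed fibres.

* `D.Rad 𝒳 i (d + 1 - i)`, the criterion: for every closed point `v` of the base, a cycle class `z`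
  on the fibre `𝒳_v`, of codimension `d + 1 - i` in `𝒳`, which has intersection number `0` with all
  cycles of codimension `i` supported in `𝒳_v`, has intersection number `0` with all of
  `Ch^i(𝒳)_{ℚ,0}`.
* Q1 for `𝒳`, `i` is equivalent to the criterion.
* Q1 for `𝒳 × P^m` and `k` is equivalent to Q1 for `𝒳` and `k - m, ..., k`.
* For every `𝒳` there are a strictly semistable projective model `𝒴` (over a larger ring of
  integers) and `k` with `dim 𝒴_η + 1 = 2 k` such that Q1 for `𝒴`, `k` implies Q1 for `𝒳` and all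
  codimensions.
* Q1 (for all models and codimensions) is equivalent to Q1 for the strictly semistable projective
  models of relative dimension `2 k - 1` in the middle codimension `k`, where `k` only runs through
  an arbitrary unbounded set `K` of integers, and so to the following statement on these models: the
  radical of the intersection form on the group of the cycles of codimension `k` supported in a
  fibre `𝒴_v` is orthogonal to `Ch^k(𝒴)_{ℚ,0}`.
-/
set_option autoImplicit false

namespace Pool.Agent.Results.MP_62d77c_ag.MiddleCodimension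

open Pool.Agent.Q16.AC

universe u

/-- The known properties used. `SS`: the model is projective and strictly semistable. -/
structure IsKnown (D : Arith.{u}) (SS : D.Model → Prop) : Prop where
  /-- the properties of the Chow groups of one model -/
  basic : D.Basic
  /-- Chow groups in negative codimensions are zero -/
  zero : ∀ X i, i < 0 → Subsingleton (D.Gen X i)
  /-- Chow groups of `X` in codimensions larger than `dim X` are zero -/
  large : ∀ X i, D.dim X < i → Subsingleton (D.Gen X i)
  /-- dimensions are not negative -/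
  dim_nonneg : ∀ X, 0 ≤ D.dim X
  /-- de Jong: every model has an alteration by a strictly semistable projective model (over a
  larger ring of integers) -/
  deJong : ∀ X, ∃ Y, SS Y ∧ Nonempty (D.Alteration Y X)
  /-- `𝒳 × P^m`, strictly semistable and projective if `𝒳` is so -/
  bundle : ∀ X m, ∃ P, Nonempty (D.IsBundle m P X) ∧ (SS X → SS P)

variable {D : Arith.{u}} {SS : D.Model → Prop}

theorem lifts_of_subsingleton {X : D.Model} {i j : ℤ}
    (hs : Subsingleton (D.Gen X i)) : D.Lifts X i j := by
  intro c _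
  exact ⟨0, Subsingleton.elim _ _, fun z _ => Arith.pair_zero_left z⟩

/-- Q1 in one middle codimension of a strictly semistable model gives Q1 in a range of
codimensions of a given model. -/
theorem exists_middle (h : IsKnown D SS) (X : D.Model) {k : ℤ} (hk : D.dim X + 1 ≤ 2 * k) :
    ∃ Y, SS Y ∧ D.dim Y + 1 = 2 * k ∧ (D.Q1 Y k → ∀ i, i ≤ k → D.dim X + 1 - k ≤ i → D.Q1 X i) := by
  obtain ⟨Y, hY, ⟨f⟩⟩ := h.deJong X
  obtain ⟨m, hm⟩ : ∃ m : ℕ, (m : ℤ) = 2 * k - (D.dim X + 1) :=
    ⟨(2 * k - (D.dim X + 1)).toNat, Int.toNat_of_nonneg (by omega)⟩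
  obtain ⟨P, ⟨g⟩, hP⟩ := h.bundle Y m
  have hdP : D.dim P + 1 = 2 * k := by rw [g.dim_eq, f.dim_eq]; omega
  refine ⟨P, hP hY, hdP, fun hQ i hi1 hi2 => ?_⟩
  have hQ' : D.Lifts P k k := by
    have h1 := hQ
    unfold Arith.Q1 at h1
    have h2 : D.dim P + 1 - k = k := by omega
    rwa [h2] at h1
  have h1 := (g.lifts_iff h.basic (by omega)).1 hQ'
  obtain ⟨t, ht⟩ : ∃ t : ℕ, (t : ℤ) = k - i := ⟨(k - i).toNat, Int.toNat_of_nonneg (by omega)⟩
  have htm : t < m + 1 := by omega
  have h2 := h1 ⟨t, htm⟩
  have e1 : k - ((⟨t, htm⟩ : Fin (m + 1)) : ℕ) = i := by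
    show k - (t : ℤ) = i
    omega
  have e2 : k - ((Fin.rev ⟨t, htm⟩ : Fin (m + 1)) : ℕ) = D.dim X + 1 - i := by
    rw [Fin.val_rev]
    show k - ((m + 1 - (t + 1) : ℕ) : ℤ) = D.dim X + 1 - i
    omega
  rw [e1, e2] at h2
  exact f.lifts h.basic (by omega) h2

theorem result (D : Arith.{u}) (SS : D.Model → Prop) (h : IsKnown D SS) :
    (∀ X i, D.Q1 X i ↔ D.Rad X i (D.dim X + 1 - i)) ∧
    (∀ m P X, Nonempty (D.IsBundle m P X) → ∀ k,
      (D.Q1 P k ↔ ∀ i, k - m ≤ i → i ≤ k → D.Q1 X i)) ∧
    (∀ X, ∃ Y k, SS Y ∧ D.dim Y + 1 = 2 * k ∧ (D.Q1 Y k → ∀ i, D.Q1 X i)) ∧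
    ∀ K : Set ℤ, (∀ N : ℤ, ∃ k ∈ K, N ≤ k) →
      List.TFAE [
        ∀ X i, D.Q1 X i,
        ∀ X, ∀ k ∈ K, SS X → D.dim X + 1 = 2 * k → D.Q1 X k,
        ∀ X, ∀ k ∈ K, SS X → D.dim X + 1 = 2 * k →
          ∀ v (z : D.Fib X v k), (∀ f : D.Fib X v k, D.num (D.cls f) z = 0) →
            ∀ c : D.Ch X k, D.IsHom c → D.num c z = 0] := by
  have hcrit : ∀ X i, D.Q1 X i ↔ D.Rad X i (D.dim X + 1 - i) := fun X i =>
    h.basic.lifts_iff (by omega)
  refine ⟨hcrit, ?_, ?_, ?_⟩
  · rintro m P X ⟨g⟩ k
    have h1 := g.lifts_iff h.basic (k := k) (l := D.dim P + 1 - k) (by omega)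
    unfold Arith.Q1
    rw [h1]
    constructor
    · intro h2 i hi1 hi2
      obtain ⟨t, ht⟩ : ∃ t : ℕ, (t : ℤ) = k - i := ⟨(k - i).toNat, Int.toNat_of_nonneg (by omega)⟩
      have htm : t < m + 1 := by omega
      have h3 := h2 ⟨t, htm⟩
      have e1 : k - ((⟨t, htm⟩ : Fin (m + 1)) : ℕ) = i := by
        show k - (t : ℤ) = i
        omega
      have e2 : D.dim P + 1 - k - ((Fin.rev ⟨t, htm⟩ : Fin (m + 1)) : ℕ) = D.dim X + 1 - i := by
        rw [Fin.val_rev, g.dim_eq]
        show D.dim X + m + 1 - k - ((m + 1 - (t + 1) : ℕ) : ℤ) = D.dim X + 1 - i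
        omega
      rwa [e1, e2] at h3
    · intro h2 t
      have e2 : D.dim P + 1 - k - (Fin.rev t : ℕ) = D.dim X + 1 - (k - (t : ℕ)) := by
        rw [Fin.val_rev, g.dim_eq]
        have := t.2
        omega
      rw [e2]
      have := t.2
      exact h2 _ (by omega) (by omega)
  · intro X
    have hd := h.dim_nonneg X
    obtain ⟨Y, hY, hdY, hQ⟩ := exists_middle h X (k := D.dim X + 1) (by omega)
    refine ⟨Y, D.dim X + 1, hY, hdY, fun hq i => ?_⟩
    rcases lt_or_ge i 0 with h0 | h0
    · exact lifts_of_subsingleton (h.zero X i h0)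
    · rcases lt_or_ge (D.dim X) i with h1 | h1
      · exact lifts_of_subsingleton (h.large X i h1)
      · exact hQ hq i (by omega) (by omega)
  · intro K hK
    tfae_have 1 → 2 := fun h1 X k _ _ _ => h1 X k
    tfae_have 2 → 1 := by
      intro h2 X i
      obtain ⟨k, hkK, hk⟩ := hK (max (D.dim X + 1) (max i (D.dim X + 1 - i)))
      have hd := h.dim_nonneg X
      obtain ⟨Y, hY, hdY, hQ⟩ := exists_middle h X (k := k) (by omega)
      exact hQ (h2 Y k hkK hY hdY) i (by omega) (by omega)
    tfae_have 2 ↔ 3 := by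
      refine forall_congr' fun X => forall_congr' fun k => forall_congr' fun _ =>
        forall_congr' fun _ => forall_congr' fun hd => ?_
      rw [hcrit X k]
      have e : D.dim X + 1 - k = k := by omega
      rw [e]
      rfl
    tfae_finish

end Pool.Agent.Results.MP_62d77c_ag.MiddleCodimension
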