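import Pool.Agent.Q16.AC.Den
/-!
# Lifting cycles orthogonally to fibral cycles: uniform denominators

Q1 for a regular model `𝒳` and a codimension `i` is equivalent to its uniform integral form: there
is an integer `N > 0`, depending only on `𝒳` and `i`, such that for all cohomologically trivial
integral cycle classes `c` of codimension `i` on the generic fibre, `N c` lifts to an integral cycle
class on `𝒳` which is orthogonal to all classes supported in closed fibres.

Consequently, if Q1 holds for `𝒳` and the complementary codimensions `i`, `j`, the Beilinson–Bloch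
height of integral classes `c`, `e` of codimensions `i`, `j` is `1/N` times the Gillet–Soulé pairing
of integral classes on `𝒳`: its contributions at the finite places `v` are in `(1/N) ℤ log Nv`, with
one `N` for all cycles.
-/
set_option autoImplicit false

namespace Pool.Agent.Results.MP_62d77c_ag.UniformDenominators

open Pool.Agent.Q16.AC Pool.Agent.Q16.AC.Arith

universe u

/-- The groups of integral cycle classes (the images of the Chow groups with integral
coefficients). -/
structure Lattices (D : Arith.{u}) where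
  /-- integral classes of `𝒳` -/
  ch : ∀ X i, AddSubgroup (D.Ch X i)
  /-- integral classes of the generic fibre -/
  gen : ∀ X i, AddSubgroup (D.Gen X i)
  /-- integral cycle classes on the fibre `𝒳_v` -/
  fib : ∀ X v j, AddSubgroup (D.Fib X v j)

variable {D : Arith.{u}}

/-- The known properties of the integral classes. -/
structure IsKnown (D : Arith.{u}) (L : Lattices D) : Prop where
  basic : D.Basic
  /-- integral classes restrict to integral classes -/
  gen_mem : ∀ X i (c : D.Ch X i), c ∈ L.ch X i → D.gen c ∈ L.gen X i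
  /-- integral classes of the generic fibre are restrictions of integral classes -/
  lift : ∀ X i, ∀ c ∈ L.gen X i, ∃ b ∈ L.ch X i, D.gen b = c
  /-- integral cycles on fibres give integral classes -/
  cls_mem : ∀ X v j (z : D.Fib X v j), z ∈ L.fib X v j → D.cls z ∈ L.ch X j
  /-- their intersection numbers are integers -/
  num_mem : ∀ X v i j, i + j = D.dim X + 1 → ∀ (c : D.Ch X i) (z : D.Fib X v j), c ∈ L.ch X i →
    z ∈ L.fib X v j → ∃ m : ℤ, D.num c z = m
  /-- every class has an integral multiple -/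
  ch_mul : ∀ X i (c : D.Ch X i), ∃ n : ℕ, 0 < n ∧ n • c ∈ L.ch X i
  /-- every cycle class on a fibre has an integral multiple -/
  fib_mul : ∀ X v j (z : D.Fib X v j), ∃ n : ℕ, 0 < n ∧ n • z ∈ L.fib X v j
  /-- the Gillet–Soulé pairing is symmetric -/
  symm : ∀ X i j (b : D.Ch X i) (c : D.Ch X j), i + j = D.dim X + 1 → D.IsHom b → D.IsHom c →
    D.pair b c = D.pair c b

/-- `b` is orthogonal to `Ch^j_fin(𝒳)_ℚ`. -/
def Orth (D : Arith.{u}) {X : D.Model} {i : ℤ} (j : ℤ) (b : D.Ch X i) : Prop :=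
  ∀ z : D.Ch X j, D.IsFin z → D.pair b z = 0

/-- For all cohomologically trivial integral classes `c` of codimension `i` on the generic fibre,
`N c` lifts to an integral class which is orthogonal to `Ch^j_fin(𝒳)_ℚ`. -/
def LiftsWith (L : Lattices D) (X : D.Model) (i j : ℤ) (N : ℕ) : Prop :=
  ∀ c ∈ D.triv X i, c ∈ L.gen X i → ∃ b ∈ L.ch X i, D.gen b = N • c ∧ Orth D j b

/-- The Gillet–Soulé pairing of orthogonal lifts of integral classes `c`, `e` (the Beilinson–Bloch
height of `c` and `e`) is `1/N` times the pairing of an integral orthogonal lift `b₁` of `N c` with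
any integral lift `e₁` of `e`. -/
def Heights (L : Lattices D) (X : D.Model) (i j : ℤ) (N : ℕ) : Prop :=
  ∀ (b : D.Ch X i) (e : D.Ch X j), D.IsHom b → D.IsHom e → D.gen b ∈ L.gen X i →
    D.gen e ∈ L.gen X j → Orth D j b → Orth D i e →
      ∃ b₁ ∈ L.ch X i, D.gen b₁ = N • D.gen b ∧ Orth D j b₁ ∧
        ∀ e₁ ∈ L.ch X j, D.gen e₁ = D.gen e → (N : ℝ) * D.pair b e = D.pair b₁ e₁

theorem lifts_of_uniform {L : Lattices D} (h : IsKnown D L) {X : D.Model} {i j : ℤ} {N : ℕ}
    (hN : 0 < N) (hl : LiftsWith L X i j N) : D.Lifts X i j := by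
  intro c0 hc0
  obtain ⟨c, rfl⟩ := h.basic.surj X i c0
  obtain ⟨n, hn0, hn⟩ := h.ch_mul X i c
  have h1 : n • D.gen c ∈ D.triv X i := Submodule.smul_of_tower_mem _ n hc0
  have h2 : n • D.gen c ∈ L.gen X i := by
    have := h.gen_mem X i _ hn
    rwa [show D.gen (n • c) = n • D.gen c from map_nsmul (D.res X i) n c] at this
  obtain ⟨b, -, hb, hbo⟩ := hl _ h1 h2
  have hNn : ((N * n : ℕ) : ℚ) ≠ 0 := by
    have := Nat.mul_pos hN hn0
    exact_mod_cast this.ne'
  refine ⟨((N * n : ℕ) : ℚ)⁻¹ • b, ?_, fun z hz => ?_⟩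
  · rw [gen_smul, hb, smul_smul, ← Nat.cast_smul_eq_nsmul ℚ (N * n), smul_smul,
      inv_mul_cancel₀ hNn, one_smul]
  · rw [pair_smul_left, hbo z hz, mul_zero]

theorem uniform_of_lifts {L : Lattices D} (h : IsKnown D L) {X : D.Model} {i j : ℤ}
    (hij : i + j = D.dim X + 1) (hl : D.Lifts X i j) : ∃ N : ℕ, 0 < N ∧ LiftsWith L X i j N := by
  classical
  have hrad := (h.basic.lifts_iff hij).1 hl
  have key : ∀ v : D.Place X, ∃ N : ℕ, 0 < N ∧ ∀ c : D.Ch X i, c ∈ L.ch X i → D.IsHom c →
      ∃ f ∈ L.fib X v i, ∀ z : D.Fib X v j, D.num (D.cls f) z = N * D.num c z := by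
    intro v
    obtain ⟨F, hF, hF0, V, hV, hVF, hVd, a, b, hab⟩ := h.basic.ell X v i j hij
    obtain ⟨N, hN0, hN⟩ := exists_denominator ((D.deg X v i j).comp (D.inc X v i))
      (a.comp (D.inc X v i).toAddMonoidHom) b (fun x y => hab _ _) (L.fib X v i) (L.fib X v j)
      (h.fib_mul X v i) (h.fib_mul X v j)
    refine ⟨N, hN0, fun c hc hch => ?_⟩
    obtain ⟨f, hf, hfz⟩ := hN (D.deg X v i j c) (fun y hy => h.num_mem X v i j hij c y hc hy)
      (fun y hy => hrad v y hy c hch)
    exact ⟨f, hf, hfz⟩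
  choose N hN0 hN using key
  have hfin := h.basic.good X i j hij
  set s := hfin.toFinset with hs
  refine ⟨∏ v ∈ s, N v, Finset.prod_pos fun v _ => hN0 v, fun c0 hc0 hc0L => ?_⟩
  obtain ⟨c, hcL, rfl⟩ := h.lift X i c0 hc0L
  choose f hfL hf using fun v => hN v c hcL hc0
  have hg : D.gen ((∏ v ∈ s, N v) • c - ∑ v ∈ s, (∏ w ∈ s.erase v, N w) • D.cls (f v)) =
      (∏ v ∈ s, N v) • D.gen c := by
    rw [gen_sub, gen_sum, Finset.sum_eq_zero
      (f := fun v => D.gen ((∏ w ∈ s.erase v, N w) • D.cls (f v))), sub_zero]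
    · exact map_nsmul (D.res X i) _ c
    · intro v _
      have h1 : D.gen (D.cls (f v)) = 0 := h.basic.isFin_cls (f v)
      rw [show D.gen ((∏ w ∈ s.erase v, N w) • D.cls (f v)) =
        (∏ w ∈ s.erase v, N w) • D.gen (D.cls (f v)) from map_nsmul (D.res X i) _ _, h1,
        smul_zero]
  refine ⟨_, AddSubgroup.sub_mem _ (AddSubgroup.nsmul_mem _ hcL _)
    (AddSubgroup.sum_mem _ fun v _ => AddSubgroup.nsmul_mem _ (h.cls_mem X v i _ (hfL v)) _), hg,
    ?_⟩
  refine (h.basic.orth_iff hij (by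
    rw [isHom_iff, hg]
    exact Submodule.smul_of_tower_mem _ _ hc0)).2 fun w z => ?_
  have hns : ∀ (n : ℕ) (b : D.Ch X i), D.num (n • b) z = n * D.num b z := by
    intro n b
    rw [← Nat.cast_smul_eq_nsmul ℚ, num_smul]
  rw [num_sub, num_sum, hns]
  by_cases hw : w ∈ s
  · rw [Finset.sum_eq_single_of_mem w hw fun v _ hv => by
      rw [hns, h.basic.disj X v w i j hv hij _ _, mul_zero], hns, hf,
      ← Finset.mul_prod_erase _ _ hw]
    push_cast
    ring
  · rw [Finset.sum_eq_zero fun v hv => by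
      rw [hns, h.basic.disj X v w i j (fun e => hw (e ▸ hv)) hij _ _, mul_zero], sub_zero]
    have h0 : D.num c z = 0 := by
      by_contra hne
      refine hw ?_
      rw [hs, Set.Finite.mem_toFinset]
      exact ⟨c, hc0, z, hne⟩
    rw [h0, mul_zero]

theorem heights {L : Lattices D} (h : IsKnown D L) {X : D.Model} {i j : ℤ}
    (hij : i + j = D.dim X + 1) {N : ℕ} (hl : LiftsWith L X i j N) : Heights L X i j N := by
  intro b e hb he hbL heL hbo heo
  obtain ⟨b₁, hb₁L, hb₁, hb₁o⟩ := hl (D.gen b) hb hbL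
  refine ⟨b₁, hb₁L, hb₁, hb₁o, fun e₁ he₁L he₁ => ?_⟩
  have hb₁h : D.IsHom b₁ := by
    rw [isHom_iff, hb₁]
    exact Submodule.smul_of_tower_mem _ _ hb
  have hgN : D.gen ((N : ℚ) • b) = N • D.gen b := by
    rw [gen_smul, Nat.cast_smul_eq_nsmul]
  have h1 : D.IsFin ((N : ℚ) • b - b₁) := isFin_sub_iff.2 (by rw [hgN, hb₁])
  have h1h : D.IsHom ((N : ℚ) • b - b₁) := by
    rw [isHom_iff, show D.gen ((N : ℚ) • b - b₁) = 0 from h1]
    exact zero_mem _
  have h2 : D.pair ((N : ℚ) • b - b₁) e = 0 := by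
    rw [h.symm X i j _ _ hij h1h he]
    exact heo _ h1
  have h3 : D.IsFin (e - e₁) := isFin_sub_iff.2 he₁.symm
  have h4 : D.pair b₁ (e - e₁) = 0 := hb₁o _ h3
  have h5 : D.pair ((N : ℚ) • b - b₁) e = (N : ℝ) * D.pair b e - D.pair b₁ e := by
    unfold Arith.pair
    rw [map_sub, LinearMap.sub_apply, map_smul, LinearMap.smul_apply, Rat.smul_def]
    push_cast
    ring
  have h6 : D.pair b₁ (e - e₁) = D.pair b₁ e - D.pair b₁ e₁ := map_sub _ _ _
  linarith

theorem result (D : Arith.{u}) (L : Lattices D) (h : IsKnown D L) (X : D.Model) (i j : ℤ)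
    (hij : i + j = D.dim X + 1) :
    (D.Lifts X i j ↔ ∃ N : ℕ, 0 < N ∧ LiftsWith L X i j N) ∧
    ∀ N : ℕ, LiftsWith L X i j N → Heights L X i j N :=
  ⟨⟨uniform_of_lifts h hij, fun ⟨_, hN, hl⟩ => lifts_of_uniform h hN hl⟩,
    fun _ hl => heights h hij hl⟩

end Pool.Agent.Results.MP_62d77c_ag.UniformDenominators
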